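import Mathlib

set_option autoImplicit false

namespace Pool.Agent.H449R2.Chi

open MeasureTheory

/-- the integer vector a as a point of Euclidean space -/
noncomputable def iv {n : ℕ} (a : Fin n → ℤ) : EuclideanSpace ℝ (Fin n) := WithLp.toLp 2 (fun i => (a i : ℝ))

@[simp] theorem iv_apply {n : ℕ} (a : Fin n → ℤ) (i : Fin n) : iv a i = a i := rfl

theorem iv_sub {n : ℕ} (a b : Fin n → ℤ) : iv (a - b) = iv a - iv b := by
  ext i; simp

theorem iv_add {n : ℕ} (a b : Fin n → ℤ) : iv (a + b) = iv a + iv b := by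
  ext i; simp

theorem iv_neg {n : ℕ} (a : Fin n → ℤ) : iv (-a) = - iv a := by
  ext i; simp

/-- half-open unit cube at an integer vector -/
def cube {n : ℕ} (a : Fin n → ℤ) : Set (EuclideanSpace ℝ (Fin n)) := {z | ∀ i, (a i : ℝ) ≤ z i ∧ z i < a i + 1}

theorem cube_eq {n : ℕ} (a : Fin n → ℤ) :
    cube a = (WithLp.ofLp : EuclideanSpace ℝ (Fin n) → (Fin n → ℝ)) ⁻¹' (Set.pi Set.univ fun i => Set.Ico (a i : ℝ) (a i + 1)) := by
  ext z
  simp [cube, Set.mem_pi]

theorem meas_cube {n : ℕ} (a : Fin n → ℤ) : MeasurableSet (cube a) := by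
  rw [cube_eq]
  apply (PiLp.volume_preserving_ofLp (Fin n)).measurable
  exact MeasurableSet.univ_pi (fun i => measurableSet_Ico)

theorem vol_cube {n : ℕ} (a : Fin n → ℤ) : volume (cube a) = 1 := by
  rw [cube_eq, (PiLp.volume_preserving_ofLp (Fin n)).measure_preimage
    (MeasurableSet.univ_pi (fun i => measurableSet_Ico)).nullMeasurableSet, Real.volume_pi_Ico]
  simp

theorem cube_floor {n : ℕ} (z : EuclideanSpace ℝ (Fin n)) : z ∈ cube (fun i => ⌊z i⌋) := by
  intro i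
  exact ⟨Int.floor_le _, Int.lt_floor_add_one _⟩

theorem cube_disj {n : ℕ} {a b : Fin n → ℤ} (h : a ≠ b) : Disjoint (cube a) (cube b) := by
  rw [Set.disjoint_left]
  intro z hza hzb
  apply h
  ext i
  have h1 : ⌊z i⌋ = a i := by
    rw [Int.floor_eq_iff]; exact hza i
  have h2 : ⌊z i⌋ = b i := by
    rw [Int.floor_eq_iff]; exact hzb i
  rw [← h1, h2]

theorem cube_norm {n : ℕ} {a : Fin n → ℤ} {z : EuclideanSpace ℝ (Fin n)} (hz : z ∈ cube a) :
    ‖z - iv a‖ ≤ √n := by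
  rw [EuclideanSpace.norm_eq]
  apply Real.sqrt_le_sqrt
  calc ∑ i, ‖(z - iv a) i‖ ^ 2 ≤ ∑ i : Fin n, (1:ℝ) := by
        apply Finset.sum_le_sum
        intro i _
        have h1 := (hz i).1
        have h2 := (hz i).2
        have h3 : (z - iv a) i = z i - a i := by simp
        rw [h3, Real.norm_eq_abs, sq_abs]
        nlinarith
    _ = n := by simp

/-- volume of the Euclidean unit ball -/
noncomputable def kap (n : ℕ) : ℝ := (volume (Metric.closedBall (0 : EuclideanSpace ℝ (Fin n)) 1)).toReal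

theorem kap_nonneg (n : ℕ) : 0 ≤ kap n := ENNReal.toReal_nonneg

theorem kap_pos (n : ℕ) : 0 < kap n := by
  unfold kap
  apply ENNReal.toReal_pos
  · exact (Metric.measure_closedBall_pos volume _ one_pos).ne'
  · exact (measure_closedBall_lt_top).ne

theorem vol_ball {n : ℕ} (x : EuclideanSpace ℝ (Fin n)) {r : ℝ} (hr : 0 ≤ r) :
    (volume (Metric.closedBall x r)).toReal = kap n * r ^ n := by
  rw [Measure.addHaar_closedBall' volume x hr, ENNReal.toReal_mul, ENNReal.toReal_ofReal (by positivity)]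
  simp [kap, mul_comm]

theorem vol_union {n : ℕ} (S : Finset (Fin n → ℤ)) : volume (⋃ a ∈ S, cube a) = S.card := by
  rw [measure_biUnion_finset (fun a _ b _ hab => cube_disj hab) (fun a _ => meas_cube a)]
  simp [vol_cube]

theorem count_upper {n : ℕ} (S : Finset (Fin n → ℤ)) (p : EuclideanSpace ℝ (Fin n)) (ρ : ℝ) (hρ : 0 ≤ ρ)
    (h : ∀ a ∈ S, ‖iv a - p‖ ≤ ρ) : (S.card : ℝ) ≤ kap n * (ρ + √n) ^ n := by
  rw [← vol_ball p (by positivity)]
  have h1 : volume (⋃ a ∈ S, cube a) ≤ volume (Metric.closedBall p (ρ + √n)) := by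
    apply measure_mono
    intro z hz
    simp only [Set.mem_iUnion] at hz
    obtain ⟨a, ha, hz⟩ := hz
    rw [Metric.mem_closedBall, dist_eq_norm]
    calc ‖z - p‖ = ‖(iv a - p) + (z - iv a)‖ := by congr 1; abel
      _ ≤ ‖iv a - p‖ + ‖z - iv a‖ := norm_add_le _ _
      _ ≤ ρ + √n := add_le_add (h a ha) (cube_norm hz)
  rw [vol_union] at h1
  have h2 := ENNReal.toReal_mono (measure_closedBall_lt_top).ne h1
  simpa using h2

theorem count_lower {n : ℕ} (S : Finset (Fin n → ℤ)) (ρ : ℝ) (hρ : √n ≤ ρ)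
    (h : ∀ a, ‖iv a‖ ≤ ρ → a ∈ S) : kap n * (ρ - √n) ^ n ≤ S.card := by
  rw [← vol_ball (0 : EuclideanSpace ℝ (Fin n)) (by linarith)]
  have h1 : volume (Metric.closedBall (0 : EuclideanSpace ℝ (Fin n)) (ρ - √n)) ≤ volume (⋃ a ∈ S, cube a) := by
    apply measure_mono
    intro z hz
    simp only [Set.mem_iUnion]
    refine ⟨fun i => ⌊z i⌋, ?_, cube_floor z⟩
    apply h
    rw [Metric.mem_closedBall, dist_zero_right] at hz
    have h2 := cube_norm (cube_floor z)
    calc ‖iv (fun i => ⌊z i⌋)‖ = ‖z - (z - iv (fun i => ⌊z i⌋))‖ := by congr 1; abel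
      _ ≤ ‖z‖ + ‖z - iv (fun i => ⌊z i⌋)‖ := norm_sub_le _ _
      _ ≤ ρ := by linarith
  rw [vol_union] at h1
  have h2 := ENNReal.toReal_mono (by simp) h1
  simpa using h2

theorem kap_le (n : ℕ) : kap n ≤ 2 ^ n := by
  have h1 : Metric.closedBall (0 : EuclideanSpace ℝ (Fin n)) 1 ⊆
      (WithLp.ofLp : EuclideanSpace ℝ (Fin n) → (Fin n → ℝ)) ⁻¹' (Set.Icc (fun _ => (-1:ℝ)) (fun _ => 1)) := by
    intro z hz
    rw [Metric.mem_closedBall, dist_zero_right] at hz
    have h2 : ∀ i, |z i| ≤ 1 := by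
      intro i
      have := EuclideanSpace.norm_eq z
      have h3 : ‖z i‖ ^ 2 ≤ ∑ j, ‖z j‖ ^ 2 := Finset.single_le_sum (f := fun j => ‖z j‖ ^ 2) (fun j _ => sq_nonneg _) (Finset.mem_univ i)
      have h4 : ‖z i‖ ≤ ‖z‖ := by
        rw [this]
        exact Real.le_sqrt_of_sq_le h3
      rw [← Real.norm_eq_abs]
      linarith
    simp only [Set.mem_preimage, Set.mem_Icc, Pi.le_def]
    exact ⟨fun i => (abs_le.mp (h2 i)).1, fun i => (abs_le.mp (h2 i)).2⟩
  have h5 := measure_mono (μ := volume) h1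
  rw [(PiLp.volume_preserving_ofLp (Fin n)).measure_preimage measurableSet_Icc.nullMeasurableSet,
    Real.volume_Icc_pi] at h5
  have h6 := ENNReal.toReal_mono (by simp) h5
  unfold kap
  refine h6.trans ?_
  simp
  norm_num

end Pool.Agent.H449R2.Chi
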