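import Mathlib

set_option autoImplicit false

namespace Pool.Agent.H449R2.Chi

open scoped InnerProductSpace

variable {E : Type*} [NormedAddCommGroup E] [InnerProductSpace ℝ E]

/-- conflict of the offset x with a centre at displacement l (separation S) -/
def Conf (S : ℝ) (x l : E) : Prop := ‖l‖ ^ 2 - S * ‖l‖ ≤ 2 * ⟪x, l⟫_ℝ

theorem sep {S : ℝ} {x y l : E} (hx : ¬ Conf S x l) (hy : ¬ Conf S y (-l)) : S < ‖l + y - x‖ := by
  unfold Conf at hx hy
  rw [not_le] at hx hy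
  rw [inner_neg_right, norm_neg] at hy
  have hl : 0 < ‖l‖ := by
    rcases (norm_nonneg l).eq_or_lt' with h | h
    · have : l = 0 := by simpa using h
      subst this
      simp at hx
    · exact h
  have h1 : ⟪l + y - x, l⟫_ℝ = ‖l‖ ^ 2 + ⟪y, l⟫_ℝ - ⟪x, l⟫_ℝ := by
    rw [inner_sub_left, inner_add_left, real_inner_self_eq_norm_sq]
  have h2 : S * ‖l‖ < ‖l + y - x‖ * ‖l‖ := by
    calc S * ‖l‖ < ⟪l + y - x, l⟫_ℝ := by rw [h1]; linarith
      _ ≤ _ := real_inner_le_norm _ _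
  exact lt_of_mul_lt_mul_right h2 hl.le

theorem conf_near {S : ℝ} (hS : 0 < S) {x l : E} (hx : ‖x‖ ≤ S / 2) (h : Conf S x l) (N : ℕ) (hN : 1 ≤ N) :
    ∃ k : ℤ, -(2 * (N:ℤ) + 1) ≤ k ∧ k ≤ 2 * N ∧
      ‖l - ((k:ℝ) * (S / N)) • (‖x‖⁻¹ • x)‖ ≤ 3 * √3 / 4 * S + S / N := by
  unfold Conf at h
  set e : E := ‖x‖⁻¹ • x with he
  have hNr : (1:ℝ) ≤ N := by exact_mod_cast hN
  have hη : 0 < S / N := by positivity
  -- norm of e
  have hecase : (x = 0 ∧ e = 0) ∨ (x ≠ 0 ∧ ‖e‖ = 1) := by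
    by_cases hx0 : x = 0
    · left; exact ⟨hx0, by simp [he, hx0]⟩
    · right; refine ⟨hx0, ?_⟩
      rw [he, norm_smul, norm_inv, norm_norm, inv_mul_cancel₀ (norm_ne_zero_iff.mpr hx0)]
  have hele : ‖e‖ ≤ 1 := by rcases hecase with ⟨_, h⟩ | ⟨_, h⟩ <;> simp [h]
  set p : ℝ := ⟪e, l⟫_ℝ with hp
  set L : ℝ := ‖l‖ with hL
  have hL0 : 0 ≤ L := norm_nonneg _
  have hpL : |p| ≤ L := by
    calc |p| ≤ ‖e‖ * ‖l‖ := abs_real_inner_le_norm _ _
      _ ≤ 1 * ‖l‖ := by gcongr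
      _ = L := by simp [hL]
  have hxl : ⟪x, l⟫_ℝ = ‖x‖ * p := by
    rcases hecase with ⟨h0, _⟩ | ⟨h0, _⟩
    · simp [h0]
    · rw [hp, he, real_inner_smul_left]
      field_simp [norm_ne_zero_iff.mpr h0]
  have hperp : ‖l - p • e‖ ^ 2 = L ^ 2 - p ^ 2 := by
    rw [norm_sub_sq_real, real_inner_smul_right, norm_smul, mul_pow, real_inner_comm, ← hp]
    rcases hecase with ⟨_, h0⟩ | ⟨_, h0⟩
    · have : p = 0 := by rw [hp, h0, inner_zero_left]
      simp [this, hL]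
    · rw [h0]; simp [hL]; ring
  have hx0 : 0 ≤ ‖x‖ := norm_nonneg _
  -- L ≤ 2 S
  have hL2 : L ≤ 2 * S := by
    by_contra hcon
    push Not at hcon
    have : 2 * (‖x‖ * p) ≤ S * L := by
      have : p ≤ L := (le_abs_self p).trans hpL
      nlinarith
    rw [hxl] at h
    nlinarith
  -- main inequality
  have hq : L ^ 2 - p ^ 2 ≤ (3 * √3 / 4 * S) ^ 2 := by
    have h3 : (3 * √3 / 4 * S) ^ 2 = 27 / 16 * S ^ 2 := by
      have := Real.sq_sqrt (show (0:ℝ) ≤ 3 by norm_num)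
      nlinarith [this]
    rw [h3]
    rcases le_or_gt L S with hLS | hLS
    · nlinarith [sq_nonneg p, sq_nonneg S]
    · have hpos : 0 < L ^ 2 - S * L := by nlinarith
      have hp0 : 0 < p := by
        by_contra hcon
        push Not at hcon
        rw [hxl] at h
        nlinarith
      have hp1 : L ^ 2 - S * L ≤ S * p := by
        rw [hxl] at h
        nlinarith
      -- S^2 p^2 ≥ (L^2 - S L)^2
      have h4 : (L ^ 2 - S * L) ^ 2 ≤ (S * p) ^ 2 := by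
        apply pow_le_pow_left₀ hpos.le hp1
      -- S^2 L^2 - (L^2-SL)^2 = L^3 (2S - L) ≤ 27/16 S^4
      have h5 : S ^ 2 * L ^ 2 - (L ^ 2 - S * L) ^ 2 ≤ 27 / 16 * S ^ 4 := by
        nlinarith [mul_nonneg (sq_nonneg (L - 3 / 2 * S)) (by positivity : (0:ℝ) ≤ L ^ 2 + S * L + 3 / 4 * S ^ 2)]
      have h6 : S ^ 2 * (L ^ 2 - p ^ 2) ≤ S ^ 2 * (27 / 16 * S ^ 2) := by nlinarith
      exact le_of_mul_le_mul_left h6 (by positivity)
  have hperp' : ‖l - p • e‖ ≤ 3 * √3 / 4 * S := by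
    apply abs_le_of_sq_le_sq' _ (by positivity) |>.2
    rw [hperp]; exact hq
  refine ⟨⌊p / (S / N)⌋, ?_, ?_, ?_⟩
  · have h1 : -(2 * (N:ℝ)) ≤ p / (S / N) := by
      rw [le_div_iff₀ hη]
      have : -(2 * (N:ℝ)) * (S / N) = -(2 * S) := by field_simp
      rw [this]
      have := (abs_le.mp hpL).1
      linarith
    have h2 : (-(2 * (N:ℤ)) : ℤ) ≤ ⌊p / (S / N)⌋ := by
      apply Int.le_floor.mpr
      push_cast
      exact h1
    omega
  · have h1 : p / (S / N) ≤ 2 * (N:ℝ) := by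
      rw [div_le_iff₀ hη]
      have : (2 * (N:ℝ)) * (S / N) = (2 * S) := by field_simp
      rw [this]
      have := (abs_le.mp hpL).2
      linarith
    have h2 : (⌊p / (S / N)⌋ : ℝ) ≤ ((2 * (N:ℤ) : ℤ) : ℝ) := by
      push_cast
      exact (Int.floor_le _).trans h1
    exact_mod_cast h2
  · have h1 : l - ((⌊p / (S / N)⌋:ℝ) * (S / N)) • e = (l - p • e) + (p - (⌊p / (S / N)⌋:ℝ) * (S / N)) • e := by
      rw [sub_smul]; abel
    rw [h1]
    have h2 : |p - (⌊p / (S / N)⌋:ℝ) * (S / N)| ≤ S / N := by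
      have h3 := Int.floor_le (p / (S / N))
      have h4 := Int.lt_floor_add_one (p / (S / N))
      rw [le_div_iff₀ hη] at h3
      rw [div_lt_iff₀ hη] at h4
      rw [abs_le]
      constructor
      · nlinarith
      · nlinarith
    calc ‖(l - p • e) + (p - (⌊p / (S / N)⌋:ℝ) * (S / N)) • e‖ ≤ ‖l - p • e‖ + ‖(p - (⌊p / (S / N)⌋:ℝ) * (S / N)) • e‖ := norm_add_le _ _
      _ ≤ 3 * √3 / 4 * S + S / N := by
        gcongr
        rw [norm_smul, Real.norm_eq_abs]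
        calc _ ≤ (S / N) * 1 := by gcongr
          _ = _ := by ring

end Pool.Agent.H449R2.Chi
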