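import Mathlib
import Pool.Agent.H449R2.Chi.Geo
import Pool.Agent.H449R2.Chi.Count

set_option autoImplicit false

namespace Pool.Agent.H449R2.Chi

open Finset

/-- integer points of norm at most r -/
noncomputable def Bal (n : ℕ) (r : ℝ) : Finset (Fin n → ℤ) :=
  open Classical in (Fintype.piFinset fun _ : Fin n => Finset.Icc (-(⌈r⌉₊ : ℤ)) ⌈r⌉₊).filter (fun a => ‖iv a‖ ≤ r)

theorem abs_le_norm {n : ℕ} (a : Fin n → ℤ) (i : Fin n) : |(a i : ℝ)| ≤ ‖iv a‖ := by
  have := EuclideanSpace.norm_eq (iv a)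
  have h3 : ‖iv a i‖ ^ 2 ≤ ∑ j, ‖iv a j‖ ^ 2 := Finset.single_le_sum (f := fun j => ‖iv a j‖ ^ 2) (fun j _ => sq_nonneg _) (Finset.mem_univ i)
  have h4 : ‖iv a i‖ ≤ ‖iv a‖ := by
    rw [this]
    exact Real.le_sqrt_of_sq_le h3
  simpa using h4

theorem mem_Bal {n : ℕ} {r : ℝ} {a : Fin n → ℤ} : a ∈ Bal n r ↔ ‖iv a‖ ≤ r := by
  unfold Bal
  simp only [Finset.mem_filter, Fintype.mem_piFinset, Finset.mem_Icc, and_iff_right_iff_imp]
  intro h i
  have h1 := (abs_le_norm a i).trans h
  have h2 : |(a i : ℝ)| ≤ (⌈r⌉₊ : ℝ) := h1.trans (Nat.le_ceil r)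
  rw [abs_le] at h2
  constructor
  · have := h2.1
    exact_mod_cast this
  · have := h2.2
    exact_mod_cast this

theorem Bal_coord {n : ℕ} {r : ℝ} {a : Fin n → ℤ} (h : a ∈ Bal n r) (i : Fin n) : -(⌈r⌉₊ : ℤ) ≤ a i ∧ a i ≤ ⌈r⌉₊ := by
  unfold Bal at h
  simp only [Finset.mem_filter, Fintype.mem_piFinset, Finset.mem_Icc] at h
  exact h.1 i

/-- bound for the number of centres in conflict with a point -/
noncomputable def Vb (n : ℕ) (S : ℝ) : ℝ := (4 * n + 2) * (kap n * (3 * √3 / 4 * S + S / n + √n) ^ n)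

theorem Vb_nonneg (n : ℕ) {S : ℝ} (hS : 0 ≤ S) : 0 ≤ Vb n S := by
  unfold Vb
  have := kap_nonneg n
  positivity

theorem conf_count {n : ℕ} (hn : 1 ≤ n) {S : ℝ} (hS : 0 < S) {x : Fin n → ℤ} (hx : ‖iv x‖ ≤ S / 2)
    (T : Finset (Fin n → ℤ)) (w : Fin n → ℤ) (hT : ∀ c ∈ T, Conf S (iv x) (iv (c - w))) :
    (T.card : ℝ) ≤ Vb n S := by
  classical
  set e := ‖iv x‖⁻¹ • iv x with he
  have hsub : T ⊆ (Finset.Icc (-(2 * (n:ℤ) + 1)) (2 * n)).biUnion
      (fun k => T.filter (fun c => ‖iv (c - w) - ((k:ℝ) * (S / n)) • e‖ ≤ 3 * √3 / 4 * S + S / n)) := by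
    intro c hc
    obtain ⟨k, hk1, hk2, hk3⟩ := conf_near hS hx (hT c hc) n hn
    simp only [Finset.mem_biUnion, Finset.mem_Icc, Finset.mem_filter]
    exact ⟨k, ⟨hk1, hk2⟩, hc, hk3⟩
  have h1 : (T.card : ℝ) ≤ ∑ k ∈ Finset.Icc (-(2 * (n:ℤ) + 1)) (2 * n),
      ((T.filter (fun c => ‖iv (c - w) - ((k:ℝ) * (S / n)) • e‖ ≤ 3 * √3 / 4 * S + S / n)).card : ℝ) := by
    have h2 := (Finset.card_le_card hsub).trans Finset.card_biUnion_le
    exact_mod_cast h2
  have h3 : ∀ k ∈ Finset.Icc (-(2 * (n:ℤ) + 1)) (2 * n),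
      ((T.filter (fun c => ‖iv (c - w) - ((k:ℝ) * (S / n)) • e‖ ≤ 3 * √3 / 4 * S + S / n)).card : ℝ)
        ≤ kap n * (3 * √3 / 4 * S + S / n + √n) ^ n := by
    intro k _
    apply count_upper _ (iv w + ((k:ℝ) * (S / n)) • e) _ (by positivity)
    intro a ha
    have h4 := (Finset.mem_filter.mp ha).2
    rw [iv_sub] at h4
    have h5 : iv a - (iv w + ((k:ℝ) * (S / n)) • e) = iv a - iv w - ((k:ℝ) * (S / n)) • e := by abel
    rw [h5]; exact h4
  refine h1.trans ((Finset.sum_le_sum h3).trans ?_)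
  rw [Finset.sum_const, Int.card_Icc, nsmul_eq_mul]
  unfold Vb
  have h6 : ((2 * (n:ℤ) + 1 - -(2 * (n:ℤ) + 1)).toNat : ℝ) = 4 * n + 2 := by
    have : (2 * (n:ℤ) + 1 - -(2 * (n:ℤ) + 1)).toNat = 4 * n + 2 := by omega
    rw [this]; push_cast; ring
  rw [h6]

theorem conf_count' {n : ℕ} (hn : 1 ≤ n) {S : ℝ} (hS : 0 < S) {x : Fin n → ℤ} (hx : ‖iv x‖ ≤ S / 2)
    (T : Finset (Fin n → ℤ)) (w : Fin n → ℤ) (hT : ∀ c ∈ T, Conf S (iv x) (iv (w - c))) :
    (T.card : ℝ) ≤ Vb n S := by
  classical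
  have h1 := conf_count hn hS hx (T.image (fun c => -c)) (-w) (by
    intro c hc
    obtain ⟨d, hd, rfl⟩ := Finset.mem_image.mp hc
    have : -d - -w = w - d := by abel
    rw [this]
    exact hT d hd)
  rwa [Finset.card_image_of_injective _ neg_injective] at h1

/-- number of points of the ball in conflict with displacement l -/
noncomputable def ff (n : ℕ) (r S : ℝ) (l : Fin n → ℤ) : ℝ :=
  open Classical in (((Bal n r).filter (fun x => Conf S (iv x) (iv l))).card : ℝ)

theorem ff_nonneg (n : ℕ) (r S : ℝ) (l : Fin n → ℤ) : 0 ≤ ff n r S l := by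
  unfold ff; positivity

theorem sum_ff {n : ℕ} (hn : 1 ≤ n) {r S : ℝ} (hS : 0 < S) (hr : r ≤ S / 2) (B : Finset (Fin n → ℤ)) (w : Fin n → ℤ) :
    ∑ c ∈ B, ff n r S (c - w) ≤ (Bal n r).card * Vb n S := by
  classical
  have h1 : ∑ c ∈ B, ff n r S (c - w) = ∑ x ∈ Bal n r, ((B.filter (fun c => Conf S (iv x) (iv (c - w)))).card : ℝ) := by
    unfold ff
    simp_rw [Finset.card_filter]
    push_cast
    rw [Finset.sum_comm]
  rw [h1]
  calc _ ≤ ∑ x ∈ Bal n r, Vb n S := by
        apply Finset.sum_le_sum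
        intro x hx
        apply conf_count hn hS ((mem_Bal.mp hx).trans hr) _ w
        intro c hc
        exact (Finset.mem_filter.mp hc).2
    _ = _ := by rw [Finset.sum_const, nsmul_eq_mul]

theorem sum_ff' {n : ℕ} (hn : 1 ≤ n) {r S : ℝ} (hS : 0 < S) (hr : r ≤ S / 2) (B : Finset (Fin n → ℤ)) (w : Fin n → ℤ) :
    ∑ c ∈ B, ff n r S (w - c) ≤ (Bal n r).card * Vb n S := by
  classical
  have h1 : ∑ c ∈ B, ff n r S (w - c) = ∑ x ∈ Bal n r, ((B.filter (fun c => Conf S (iv x) (iv (w - c)))).card : ℝ) := by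
    unfold ff
    simp_rw [Finset.card_filter]
    push_cast
    rw [Finset.sum_comm]
  rw [h1]
  calc _ ≤ ∑ x ∈ Bal n r, Vb n S := by
        apply Finset.sum_le_sum
        intro x hx
        apply conf_count' hn hS ((mem_Bal.mp hx).trans hr) _ w
        intro c hc
        exact (Finset.mem_filter.mp hc).2
    _ = _ := by rw [Finset.sum_const, nsmul_eq_mul]

theorem choose_centres {n : ℕ} (hn : 1 ≤ n) {r S : ℝ} (hS : 0 < S) (hr : r ≤ S / 2) (B : Finset (Fin n → ℤ))
    (hB : B.Nonempty) (k : ℕ) :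
    ∃ c : ℕ → (Fin n → ℤ), (∀ i, c i ∈ B) ∧
      ∑ i ∈ range k, ∑ j ∈ range i, (ff n r S (c j - c i) + ff n r S (c i - c j))
        ≤ (k:ℝ) ^ 2 * ((Bal n r).card * Vb n S / B.card) := by
  classical
  have hBc : (0:ℝ) < B.card := by exact_mod_cast hB.card_pos
  set D := ((Bal n r).card : ℝ) * Vb n S with hD
  have hD0 : 0 ≤ D := mul_nonneg (by positivity) (Vb_nonneg n hS.le)
  induction k with
  | zero =>
    obtain ⟨b, hb⟩ := hB
    exact ⟨fun _ => b, fun _ => hb, by simp⟩
  | succ k ih =>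
    obtain ⟨c, hc, hsum⟩ := ih
    have hex : ∃ t ∈ B, ∑ j ∈ range k, (ff n r S (c j - t) + ff n r S (t - c j)) ≤ 2 * k * (D / B.card) := by
      by_contra hcon
      push Not at hcon
      have h1 : ∑ t ∈ B, (2 * k * (D / B.card) : ℝ) < ∑ t ∈ B, ∑ j ∈ range k, (ff n r S (c j - t) + ff n r S (t - c j)) :=
        Finset.sum_lt_sum_of_nonempty hB hcon
      rw [Finset.sum_comm] at h1
      have h2 : ∑ j ∈ range k, ∑ t ∈ B, (ff n r S (c j - t) + ff n r S (t - c j)) ≤ ∑ j ∈ range k, (2 * D) := by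
        apply Finset.sum_le_sum
        intro j _
        rw [Finset.sum_add_distrib]
        have := sum_ff hn hS hr B (c j)
        have := sum_ff' hn hS hr B (c j)
        linarith
      rw [Finset.sum_const, nsmul_eq_mul] at h1
      rw [Finset.sum_const, card_range, nsmul_eq_mul] at h2
      have h3 : (B.card : ℝ) * (2 * k * (D / B.card)) = k * (2 * D) := by field_simp
      linarith
    obtain ⟨t, htB, ht⟩ := hex
    refine ⟨Function.update c k t, ?_, ?_⟩
    · intro i
      by_cases hi : i = k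
      · subst hi; simpa using htB
      · rw [Function.update_of_ne hi]; exact hc i
    · rw [Finset.sum_range_succ]
      have h1 : ∀ i ∈ range k, ∑ j ∈ range i, (ff n r S (Function.update c k t j - Function.update c k t i)
          + ff n r S (Function.update c k t i - Function.update c k t j))
          = ∑ j ∈ range i, (ff n r S (c j - c i) + ff n r S (c i - c j)) := by
        intro i hi
        rw [mem_range] at hi
        apply Finset.sum_congr rfl
        intro j hj
        rw [mem_range] at hj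
        rw [Function.update_of_ne (by omega), Function.update_of_ne (by omega)]
      rw [Finset.sum_congr rfl h1]
      have h2 : ∑ j ∈ range k, (ff n r S (Function.update c k t j - Function.update c k t k)
          + ff n r S (Function.update c k t k - Function.update c k t j))
          = ∑ j ∈ range k, (ff n r S (c j - t) + ff n r S (t - c j)) := by
        apply Finset.sum_congr rfl
        intro j hj
        rw [mem_range] at hj
        rw [Function.update_of_ne (by omega), Function.update_self]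
      rw [h2]
      have h3 : 0 ≤ D / B.card := by positivity
      push_cast
      nlinarith

theorem sum_pairs (a : ℕ → ℕ → ℝ) (N : ℕ) :
    ∑ i ∈ range N, ∑ j ∈ (range N).filter (fun j => j ≠ i), a i j = ∑ i ∈ range N, ∑ j ∈ range i, (a i j + a j i) := by
  induction N with
  | zero => simp
  | succ N ih =>
    rw [Finset.sum_range_succ, Finset.sum_range_succ, ← ih]
    have h1 : ∀ i ∈ range N, ∑ j ∈ (range (N+1)).filter (fun j => j ≠ i), a i j
        = (∑ j ∈ (range N).filter (fun j => j ≠ i), a i j) + a i N := by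
      intro i hi
      rw [mem_range] at hi
      rw [Finset.range_add_one, Finset.filter_insert, if_pos (by omega : N ≠ i), Finset.sum_insert (by simp)]
      ring
    rw [Finset.sum_congr rfl h1, Finset.sum_add_distrib]
    have h2 : (range (N+1)).filter (fun j => j ≠ N) = range N := by
      ext j; simp; omega
    rw [h2, Finset.sum_add_distrib]
    ring

theorem build {n : ℕ} (hn : 1 ≤ n) {R : ℝ} (hR : √n < R) (P N : ℕ) (hP : 0 < P) :
    ∃ A : Finset (Fin n → ℤ),
      (∀ a ∈ A, ∀ i, -(⌈(R - √n) / 2⌉₊ : ℤ) ≤ a i ∧ a i < P + ⌈(R - √n) / 2⌉₊) ∧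
      (∀ a ∈ A, ∀ b ∈ A, ‖iv a - iv b‖ ≤ R - √n ∨ R + √n < ‖iv a - iv b‖) ∧
      (N : ℝ) * (Bal n ((R - √n) / 2)).card - (N:ℝ) ^ 2 * ((Bal n ((R - √n) / 2)).card * Vb n (R + √n) / (P:ℝ) ^ n) ≤ A.card := by
  classical
  set r := (R - √n) / 2 with hr
  set S := R + √n with hS
  have hs0 : 0 ≤ √(n:ℝ) := Real.sqrt_nonneg _
  have hSpos : 0 < S := by rw [hS]; linarith
  have hrS : r ≤ S / 2 := by rw [hr, hS]; linarith
  set Bx : Finset (Fin n → ℤ) := Fintype.piFinset fun _ : Fin n => Finset.Ico (0:ℤ) P with hBx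
  have hBxc : Bx.card = P ^ n := by
    rw [hBx, Fintype.card_piFinset]; simp
  have hBne : Bx.Nonempty := by
    rw [← Finset.card_pos, hBxc]; positivity
  obtain ⟨c, hc, hsum⟩ := choose_centres hn hSpos hrS Bx hBne N
  rw [hBxc] at hsum
  push_cast at hsum
  set K : ℕ → Finset (Fin n → ℤ) := fun i => (Bal n r).filter
    (fun x => ∀ j ∈ range N, j ≠ i → ¬ Conf S (iv x) (iv (c j - c i))) with hK
  have hsepK : ∀ i ∈ range N, ∀ j ∈ range N, i ≠ j → ∀ x ∈ K i, ∀ y ∈ K j,
      S < ‖iv (c j + y) - iv (c i + x)‖ := by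
    intro i hi j hj hij x hx y hy
    have h1 := (Finset.mem_filter.mp hx).2 j hj hij.symm
    have h2 := (Finset.mem_filter.mp hy).2 i hi hij
    have h3 : iv (c i - c j) = - iv (c j - c i) := by rw [← iv_neg]; congr 1; abel
    rw [h3] at h2
    have h4 := sep h1 h2
    have h5 : iv (c j + y) - iv (c i + x) = iv (c j - c i) + iv y - iv x := by
      rw [iv_add, iv_add, iv_sub]; abel
    rw [h5]; exact h4
  refine ⟨(range N).biUnion (fun i => (K i).image (fun x => c i + x)), ?_, ?_, ?_⟩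
  · intro a ha i
    obtain ⟨k, hk, ha⟩ := Finset.mem_biUnion.mp ha
    obtain ⟨x, hx, rfl⟩ := Finset.mem_image.mp ha
    have h1 := Bal_coord (Finset.mem_filter.mp hx).1 i
    have h2 := hc k
    rw [hBx, Fintype.mem_piFinset] at h2
    have h3 := Finset.mem_Ico.mp (h2 i)
    simp only [Pi.add_apply]
    constructor
    · linarith [h1.1, h3.1]
    · linarith [h1.2, h3.2]
  · intro a ha b hb
    obtain ⟨i, hi, ha⟩ := Finset.mem_biUnion.mp ha
    obtain ⟨x, hx, rfl⟩ := Finset.mem_image.mp ha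
    obtain ⟨j, hj, hb⟩ := Finset.mem_biUnion.mp hb
    obtain ⟨y, hy, rfl⟩ := Finset.mem_image.mp hb
    by_cases hij : i = j
    · left
      subst hij
      have h1 := mem_Bal.mp (Finset.mem_filter.mp hx).1
      have h2 := mem_Bal.mp (Finset.mem_filter.mp hy).1
      have h3 : iv (c i + x) - iv (c i + y) = iv x - iv y := by
        rw [iv_add, iv_add]; abel
      rw [h3]
      calc ‖iv x - iv y‖ ≤ ‖iv x‖ + ‖iv y‖ := norm_sub_le _ _
        _ ≤ r + r := add_le_add h1 h2
        _ = R - √n := by rw [hr]; ring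
    · right
      have h1 := hsepK j hj i hi (Ne.symm hij) y hy x hx
      exact h1
  · have hdisj : ∀ i ∈ range N, ∀ j ∈ range N, i ≠ j →
        Disjoint ((K i).image (fun x => c i + x)) ((K j).image (fun x => c j + x)) := by
      intro i hi j hj hij
      rw [Finset.disjoint_left]
      intro z hz1 hz2
      obtain ⟨x, hx, hxz⟩ := Finset.mem_image.mp hz1
      obtain ⟨y, hy, hyz⟩ := Finset.mem_image.mp hz2
      have h1 := hsepK i hi j hj hij x hx y hy
      rw [show c j + y = c i + x by rw [hxz, hyz]] at h1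
      simp at h1
      linarith
    rw [Finset.card_biUnion hdisj]
    have hcardimg : ∀ i, ((K i).image (fun x => c i + x)).card = (K i).card :=
      fun i => Finset.card_image_of_injective _ (add_right_injective (c i))
    simp_rw [hcardimg]
    push_cast
    have hKi : ∀ i ∈ range N, ((Bal n r).card : ℝ) - ∑ j ∈ (range N).filter (fun j => j ≠ i), ff n r S (c j - c i) ≤ (K i).card := by
      intro i _
      have hsub : Bal n r ⊆ K i ∪ ((range N).filter (fun j => j ≠ i)).biUnion
          (fun j => (Bal n r).filter (fun x => Conf S (iv x) (iv (c j - c i)))) := by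
        intro x hx
        by_cases hxK : x ∈ K i
        · exact Finset.mem_union_left _ hxK
        · apply Finset.mem_union_right
          rw [hK] at hxK
          simp only [Finset.mem_filter, not_and] at hxK
          have h1 := hxK hx
          push Not at h1
          obtain ⟨j, hj, hji, hconf⟩ := h1
          simp only [Finset.mem_biUnion, Finset.mem_filter]
          exact ⟨j, ⟨hj, hji⟩, hx, hconf⟩
      have h1 := (Finset.card_le_card hsub).trans (Finset.card_union_le _ _)
      have h2 : (((range N).filter (fun j => j ≠ i)).biUnion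
          (fun j => (Bal n r).filter (fun x => Conf S (iv x) (iv (c j - c i))))).card
          ≤ ∑ j ∈ (range N).filter (fun j => j ≠ i), ((Bal n r).filter (fun x => Conf S (iv x) (iv (c j - c i)))).card :=
        Finset.card_biUnion_le
      have h3 : ((Bal n r).card : ℝ) ≤ (K i).card + ∑ j ∈ (range N).filter (fun j => j ≠ i), ff n r S (c j - c i) := by
        unfold ff
        exact_mod_cast h1.trans (Nat.add_le_add_left h2 _)
      linarith
    have h4 := Finset.sum_le_sum hKi
    rw [Finset.sum_sub_distrib, Finset.sum_const, card_range, nsmul_eq_mul,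
      sum_pairs (fun i j => ff n r S (c j - c i)) N] at h4
    linarith

end Pool.Agent.H449R2.Chi
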