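import Mathlib

set_option autoImplicit false

namespace Pool.Agent.H449R2.Chi

/-- averaging step: some translate covers an average share of U -/
theorem step {G : Type*} [AddCommGroup G] [Fintype G] [DecidableEq G] (A U : Finset G) :
    ∃ t : G, (A.card : ℝ) * U.card ≤ Fintype.card G * (U.filter (fun g => g - t ∈ A)).card := by
  classical
  have hsum : ∑ t : G, ((U.filter (fun g => g - t ∈ A)).card : ℝ) = A.card * U.card := by
    have h1 : ∑ t : G, (U.filter (fun g => g - t ∈ A)).card = U.card * A.card := by
      have : ∀ t : G, (U.filter (fun g => g - t ∈ A)).card = ∑ g ∈ U, if g - t ∈ A then 1 else 0 := by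
        intro t
        rw [Finset.card_filter]
      simp_rw [this]
      rw [Finset.sum_comm]
      have h2 : ∀ g ∈ U, ∑ t : G, (if g - t ∈ A then 1 else 0) = A.card := by
        intro g _
        have : ∑ t : G, (if g - t ∈ A then 1 else 0) = ∑ t : G, (if t ∈ A then 1 else 0) :=
          Fintype.sum_equiv (Equiv.subLeft g) _ _ (fun t => by rw [Equiv.subLeft_apply])
        rw [this]
        simp
      rw [Finset.sum_congr rfl h2]
      simp
    have h3 : ((∑ t : G, (U.filter (fun g => g - t ∈ A)).card : ℕ) : ℝ) = ((U.card * A.card : ℕ) : ℝ) := by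
      rw [h1]
    push_cast at h3
    rw [h3]; ring
  by_contra hcon
  push Not at hcon
  have hlt : ∑ t : G, (Fintype.card G * ((U.filter (fun g => g - t ∈ A)).card : ℝ)) < ∑ t : G, (A.card : ℝ) * U.card :=
    Finset.sum_lt_sum_of_nonempty ⟨0, Finset.mem_univ _⟩ (fun t _ => hcon t)
  rw [← Finset.mul_sum, hsum] at hlt
  simp at hlt

/-- greedy covering of a finite abelian group by translates of A -/
theorem cover {G : Type*} [AddCommGroup G] [Fintype G] [DecidableEq G] (A : Finset G) (m : ℕ) :
    ∃ τ : Fin m → G, (((Finset.univ : Finset G).filter (fun g => ∀ k, g - τ k ∉ A)).card : ℝ)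
      ≤ Fintype.card G * (1 - (A.card : ℝ) / Fintype.card G) ^ m := by
  classical
  have hG : (0:ℝ) < Fintype.card G := by
    have : 0 < Fintype.card G := Fintype.card_pos_iff.mpr ⟨0⟩
    exact_mod_cast this
  induction m with
  | zero =>
    refine ⟨fun k => k.elim0, ?_⟩
    simp
  | succ m ih =>
    obtain ⟨τ, hτ⟩ := ih
    set U := (Finset.univ : Finset G).filter (fun g => ∀ k, g - τ k ∉ A) with hU
    obtain ⟨t, ht⟩ := step A U
    refine ⟨Fin.snoc τ t, ?_⟩
    have hsub : ((Finset.univ : Finset G).filter (fun g => ∀ k, g - (Fin.snoc τ t : Fin (m+1) → G) k ∉ A))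
        = U \ (U.filter (fun g => g - t ∈ A)) := by
      ext g
      simp only [Finset.mem_filter, Finset.mem_univ, true_and, Finset.mem_sdiff, hU]
      constructor
      · intro h
        refine ⟨fun k => ?_, ?_⟩
        · have := h (Fin.castSucc k)
          simpa using this
        · intro h'
          have := h (Fin.last m)
          simp at this
          exact this h'.2
      · rintro ⟨h1, h2⟩ k
        refine Fin.lastCases ?_ (fun k => ?_) k
        · simp
          intro h3
          exact h2 ⟨h1, h3⟩
        · simpa using h1 k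
    rw [hsub]
    have hcard : ((U \ (U.filter (fun g => g - t ∈ A))).card : ℝ) = U.card - (U.filter (fun g => g - t ∈ A)).card := by
      rw [Finset.card_sdiff_of_subset (Finset.filter_subset _ _), Nat.cast_sub (Finset.card_le_card (Finset.filter_subset _ _))]
    rw [hcard]
    have hA1 : (A.card : ℝ) / Fintype.card G ≤ 1 := by
      rw [div_le_one hG]
      exact_mod_cast Finset.card_le_univ A
    have h4 : (A.card : ℝ) / Fintype.card G * U.card ≤ (U.filter (fun g => g - t ∈ A)).card := by
      rw [div_mul_eq_mul_div, div_le_iff₀ hG]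
      linarith
    calc (U.card : ℝ) - (U.filter (fun g => g - t ∈ A)).card ≤ (1 - (A.card : ℝ) / Fintype.card G) * U.card := by linarith
      _ ≤ (1 - (A.card : ℝ) / Fintype.card G) * (Fintype.card G * (1 - (A.card : ℝ) / Fintype.card G) ^ m) := by
          apply mul_le_mul_of_nonneg_left hτ; linarith
      _ = _ := by ring

theorem cover_all {G : Type*} [AddCommGroup G] [Fintype G] [DecidableEq G] (A : Finset G) (m : ℕ)
    (h : (Fintype.card G : ℝ) * (1 - (A.card : ℝ) / Fintype.card G) ^ m < 1) :
    ∃ τ : Fin m → G, ∀ g, ∃ k, g - τ k ∈ A := by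
  obtain ⟨τ, hτ⟩ := cover A m
  refine ⟨τ, fun g => ?_⟩
  by_contra hg
  push Not at hg
  have h1 : (0:ℕ) < ((Finset.univ : Finset G).filter (fun g => ∀ k, g - τ k ∉ A)).card :=
    Finset.card_pos.mpr ⟨g, by simpa using hg⟩
  have h2 : (1:ℝ) ≤ ((Finset.univ : Finset G).filter (fun g => ∀ k, g - τ k ∉ A)).card := by exact_mod_cast h1
  linarith

end Pool.Agent.H449R2.Chi
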