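import Mathlib
import Pool.Agent.H449R2.Chi.Cover
import Pool.Agent.H449R2.Chi.Count

set_option autoImplicit false

namespace Pool.Agent.H449R2.Chi

theorem coord_le_norm {n : ℕ} (z : EuclideanSpace ℝ (Fin n)) (i : Fin n) : |z i| ≤ ‖z‖ := by
  have := EuclideanSpace.norm_eq z
  have h3 : ‖z i‖ ^ 2 ≤ ∑ j, ‖z j‖ ^ 2 := Finset.single_le_sum (f := fun j => ‖z j‖ ^ 2) (fun j _ => sq_nonneg _) (Finset.mem_univ i)
  have h4 : ‖z i‖ ≤ ‖z‖ := by
    rw [this]
    exact Real.le_sqrt_of_sq_le h3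
  simpa using h4

theorem norm_lt_sqrt {n : ℕ} (hn : 1 ≤ n) (z : EuclideanSpace ℝ (Fin n)) (h : ∀ i, |z i| < 1) : ‖z‖ < √n := by
  rw [EuclideanSpace.norm_eq]
  apply Real.sqrt_lt_sqrt
  · positivity
  · calc ∑ i, ‖z i‖ ^ 2 < ∑ i : Fin n, (1:ℝ) := by
          apply Finset.sum_lt_sum_of_nonempty
          · exact ⟨⟨0, by omega⟩, Finset.mem_univ _⟩
          · intro i _
            rw [Real.norm_eq_abs]
            have := h i
            have := abs_nonneg (z i)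
            nlinarith
      _ = n := by simp

theorem colour {n : ℕ} (hn : 1 ≤ n) {R : ℝ} (hR : 0 < R) (A : Finset (Fin n → ℤ)) (lo hi' : ℤ)
    (hA : ∀ a ∈ A, ∀ i, lo ≤ a i ∧ a i < hi')
    (hav : ∀ a ∈ A, ∀ b ∈ A, ‖iv a - iv b‖ ≤ R - √n ∨ R + √n < ‖iv a - iv b‖)
    (Q : ℕ) (hQ0 : 0 < Q) (hQ : ((hi' - lo : ℤ) : ℝ) + R ≤ Q) (m : ℕ)
    (hm : (Q : ℝ) ^ n * (1 - (A.card : ℝ) / (Q : ℝ) ^ n) ^ m < 1) :
    ∃ col : EuclideanSpace ℝ (Fin n) → Fin m, ∀ x y, dist x y = 1 → col x ≠ col y := by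
  classical
  have : NeZero Q := ⟨hQ0.ne'⟩
  have hQi : (hi' - lo : ℤ) < Q := by
    have : ((hi' - lo : ℤ) : ℝ) < ((Q:ℤ):ℝ) := by push_cast at *; linarith
    exact_mod_cast this
  set AG : Finset (Fin n → ZMod Q) := A.image (fun a i => ((a i : ℤ) : ZMod Q)) with hAG
  have hinj : Set.InjOn (fun (a : Fin n → ℤ) (i : Fin n) => ((a i : ℤ) : ZMod Q)) (A : Set (Fin n → ℤ)) := by
    intro a ha b hb hab
    ext i
    have h1 : ((a i : ℤ) : ZMod Q) = ((b i : ℤ) : ZMod Q) := congrFun hab i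
    rw [ZMod.intCast_eq_intCast_iff_dvd_sub] at h1
    have h2 := hA a (by exact_mod_cast ha) i
    have h3 := hA b (by exact_mod_cast hb) i
    have h4 : b i - a i = 0 := by
      apply Int.eq_zero_of_abs_lt_dvd h1
      rw [abs_lt]; constructor <;> omega
    omega
  have hAGc : AG.card = A.card := Finset.card_image_of_injOn hinj
  have hGc : (Fintype.card (Fin n → ZMod Q) : ℝ) = (Q:ℝ) ^ n := by
    rw [Fintype.card_fun, ZMod.card, Fintype.card_fin]; push_cast; rfl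
  obtain ⟨τ, hτ⟩ := cover_all AG m (by rw [hGc, hAGc]; exact hm)
  choose k hk using hτ
  refine ⟨fun z => k (fun i => ((⌊R * z i⌋ : ℤ) : ZMod Q)), ?_⟩
  intro x y hxy heq
  have h1 := hk (fun i => ((⌊R * x i⌋ : ℤ) : ZMod Q))
  have h2 := hk (fun i => ((⌊R * y i⌋ : ℤ) : ZMod Q))
  simp only at heq
  rw [← heq] at h2
  obtain ⟨a, ha, hax⟩ := Finset.mem_image.mp h1
  obtain ⟨b, hb, hby⟩ := Finset.mem_image.mp h2
  have hmod : ∀ i, ∃ p : ℤ, ⌊R * x i⌋ - ⌊R * y i⌋ = a i - b i + Q * p := by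
    intro i
    have h3 := congrFun hax i
    have h4 := congrFun hby i
    simp only [Pi.sub_apply] at h3 h4
    have h5 : (((a i - b i : ℤ)) : ZMod Q) = ((⌊R * x i⌋ - ⌊R * y i⌋ : ℤ) : ZMod Q) := by
      push_cast
      rw [h3, h4]; ring
    rw [ZMod.intCast_eq_intCast_iff_dvd_sub] at h5
    obtain ⟨p, hp⟩ := h5
    exact ⟨p, by linarith⟩
  choose p hp using hmod
  have hnorm : ‖R • x - R • y‖ = R := by
    rw [← smul_sub, norm_smul, ← dist_eq_norm, hxy, Real.norm_eq_abs, abs_of_pos hR, mul_one]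
  by_cases hall : ∀ i, p i = 0
  · set δ : EuclideanSpace ℝ (Fin n) := (R • x - R • y) - (iv a - iv b) with hδ
    have hδn : ‖δ‖ < √n := by
      apply norm_lt_sqrt hn
      intro i
      have h3 := hp i
      rw [hall i, mul_zero, add_zero] at h3
      have h4 : ((⌊R * x i⌋ : ℝ)) - ⌊R * y i⌋ = a i - b i := by exact_mod_cast h3
      have h5 : δ i = (R * x i - ⌊R * x i⌋) - (R * y i - ⌊R * y i⌋) := by
        rw [hδ]
        simp only [PiLp.sub_apply, PiLp.smul_apply, smul_eq_mul, iv_apply]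
        linarith
      rw [h5, abs_lt]
      have h6 := Int.floor_le (R * x i)
      have h7 := Int.lt_floor_add_one (R * x i)
      have h8 := Int.floor_le (R * y i)
      have h9 := Int.lt_floor_add_one (R * y i)
      constructor <;> linarith
    have h3 : R ≤ ‖iv a - iv b‖ + ‖δ‖ := by
      calc R = ‖R • x - R • y‖ := hnorm.symm
        _ = ‖(iv a - iv b) + δ‖ := by rw [hδ]; congr 1; abel
        _ ≤ _ := norm_add_le _ _
    have h4 : ‖iv a - iv b‖ ≤ R + ‖δ‖ := by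
      calc ‖iv a - iv b‖ = ‖(R • x - R • y) - δ‖ := by rw [hδ]; congr 1; abel
        _ ≤ ‖R • x - R • y‖ + ‖δ‖ := norm_sub_le _ _
        _ = _ := by rw [hnorm]
    rcases hav a ha b hb with h | h <;> linarith
  · push Not at hall
    obtain ⟨i, hi⟩ := hall
    have h3 : |R * x i - R * y i| ≤ R := by
      have := coord_le_norm (R • x - R • y) i
      rw [hnorm] at this
      simpa using this
    have h4 := hA a ha i
    have h5 := hA b hb i
    have hpi := hp i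
    have h6 := Int.floor_le (R * x i)
    have h7 := Int.lt_floor_add_one (R * x i)
    have h8 := Int.floor_le (R * y i)
    have h9 := Int.lt_floor_add_one (R * y i)
    rw [abs_le] at h3
    have hQr : (0:ℤ) < Q := by exact_mod_cast hQ0
    rcases lt_or_gt_of_ne hi with hneg | hpos
    · -- p i ≤ -1 : the difference of the floors is very negative
      have h10 : ⌊R * x i⌋ - ⌊R * y i⌋ ≤ (hi' - lo) - 1 - Q := by
        have : (Q:ℤ) * p i ≤ Q * (-1) := by
          apply mul_le_mul_of_nonneg_left _ hQr.le; omega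
        rw [hpi]; linarith [h4.1, h4.2, h5.1, h5.2]
      have h11 : (⌊R * x i⌋ : ℝ) - ⌊R * y i⌋ ≤ ((hi' - lo : ℤ) : ℝ) - 1 - Q := by
        have : (((⌊R * x i⌋ - ⌊R * y i⌋ : ℤ)) : ℝ) ≤ (((hi' - lo) - 1 - Q : ℤ) : ℝ) := by exact_mod_cast h10
        push_cast at *; linarith
      linarith [h3.1]
    · have h10 : (Q:ℤ) - (hi' - lo) + 1 ≤ ⌊R * x i⌋ - ⌊R * y i⌋ := by
        have : (Q:ℤ) * 1 ≤ Q * p i := by
          apply mul_le_mul_of_nonneg_left _ hQr.le; omega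
        rw [hpi]; linarith [h4.1, h4.2, h5.1, h5.2]
      have h11 : (Q:ℝ) - ((hi' - lo : ℤ) : ℝ) + 1 ≤ (⌊R * x i⌋ : ℝ) - ⌊R * y i⌋ := by
        have : (((Q:ℤ) - (hi' - lo) + 1 : ℤ) : ℝ) ≤ (((⌊R * x i⌋ - ⌊R * y i⌋ : ℤ)) : ℝ) := by exact_mod_cast h10
        push_cast at *; linarith
      linarith [h3.2]

end Pool.Agent.H449R2.Chi
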