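import Mathlib
import Pool.Agent.H449R2.Chi.Build
import Pool.Agent.H449R2.Chi.Color

set_option autoImplicit false

namespace Pool.Agent.H449R2.Chi

theorem pow_one_add_le {n : ℕ} (hn : 1 ≤ n) (c : ℝ) (hc : 0 ≤ c) : (1 + c / n) ^ n ≤ Real.exp c := by
  have hnr : (0:ℝ) < n := by exact_mod_cast hn
  calc (1 + c / n) ^ n ≤ (Real.exp (c / n)) ^ n := by
        apply pow_le_pow_left₀ (by positivity)
        rw [add_comm]
        exact Real.add_one_le_exp _
    _ = Real.exp c := by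
        rw [← Real.exp_nat_mul]
        congr 1
        field_simp

theorem exp_two_le : Real.exp 2 ≤ 8 := by
  have h1 := Real.exp_one_lt_d9
  have h2 : Real.exp 2 = Real.exp 1 * Real.exp 1 := by rw [← Real.exp_add]; norm_num
  have h3 := Real.exp_pos 1
  nlinarith

theorem exp_one_le : Real.exp 1 ≤ 3 := by
  have h1 := Real.exp_one_lt_d9
  linarith

theorem exp_nine_ge : (4824:ℝ) ≤ Real.exp 9 := by
  have h1 := Real.exp_one_gt_d9
  have h2 : Real.exp 9 = (Real.exp 1) ^ 9 := by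
    rw [← Real.exp_nat_mul]; norm_num
  rw [h2]
  calc (4824:ℝ) ≤ (2.7:ℝ) ^ 9 := by norm_num
    _ ≤ _ := by
      apply pow_le_pow_left₀ (by norm_num)
      linarith

theorem sqrt3_bounds : (1.7:ℝ) ≤ √3 ∧ √3 ≤ 1.8 := by
  constructor
  · apply Real.le_sqrt_of_sq_le; norm_num
  · rw [Real.sqrt_le_left (by norm_num)]; norm_num

theorem main (n : ℕ) (hn : 1 ≤ n) :
    ∃ m : ℕ, (m : ℝ) ≤ 10369 * (n:ℝ) ^ 3 * (3 * √3 / 2) ^ n ∧
      ∃ col : EuclideanSpace ℝ (Fin n) → Fin m, ∀ x y, dist x y = 1 → col x ≠ col y := by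
  have hnr : (1:ℝ) ≤ n := by exact_mod_cast hn
  have hnpos : (0:ℝ) < n := by linarith
  obtain ⟨h17, h18⟩ := sqrt3_bounds
  set s : ℝ := √n with hs
  have hs1 : 1 ≤ s := by rw [hs]; exact Real.one_le_sqrt.mpr hnr
  have hsn : s ≤ n := by
    rw [hs, Real.sqrt_le_left (by linarith)]
    nlinarith
  set R : ℝ := 12 * (n:ℝ) ^ 2 with hR
  have hn2 : (n:ℝ) ≤ (n:ℝ) ^ 2 := by nlinarith
  have hR12 : 12 * (n:ℝ) ≤ R := by rw [hR]; linarith
  have hRs : s < R := by linarith
  set r : ℝ := (R - s) / 2 with hr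
  set S : ℝ := R + s with hS
  set c : ℝ := (3 * √3 / 2) ^ n with hc
  have hc1 : 1 ≤ c := by
    rw [hc]; apply one_le_pow₀; linarith
  set Bc : ℝ := ((Bal n r).card : ℝ) with hBc
  set V : ℝ := Vb n S with hV
  set W : ℝ := kap n * ((R - 3 * s) / 2) ^ n with hW
  have hW0 : 0 < W := by
    rw [hW]
    have := kap_pos n
    have : 0 < (R - 3 * s) / 2 := by linarith
    positivity
  have hWB : W ≤ Bc := by
    have h1 := count_lower (Bal n r) r (by rw [hr, ← hs]; linarith) (fun a ha => mem_Bal.mpr ha)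
    rw [← hs] at h1
    have h2 : r - s = (R - 3 * s) / 2 := by rw [hr]; ring
    rw [h2] at h1
    exact h1
  have hV0 : 0 < V := by
    rw [hV]; unfold Vb
    have := kap_pos n
    have : 0 < 3 * √3 / 4 * S + S / n + √n := by
      rw [← hs]; have : 0 < S := by rw [hS]; linarith
      positivity
    positivity
  -- V ≤ 48 n c W
  have hVW : V ≤ 48 * n * c * W := by
    have h1 : 3 * √3 / 4 * S + S / n + √n ≤ (3 * √3 / 2) * (1 + 2 / n) * ((R - 3 * s) / 2) := by
      rw [← hs]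
      have hSn : 0 ≤ S / n := by rw [hS]; positivity
      have h2 : S / n + s ≤ 3 * √3 / 4 * (S / n + s) := by nlinarith
      have h3 : S + S / n + s ≤ (1 + 2 / n) * (R - 3 * s) := by
        have h4 : S / n = 12 * n + s / n := by rw [hS, hR]; field_simp
        have h5 : (1 + 2 / n) * (R - 3 * s) = R - 3 * s + 24 * n - 6 * (s / n) := by
          rw [hR]; field_simp; ring
        have h6 : s / n ≤ 1 := by rw [div_le_one hnpos]; exact hsn
        rw [h4, h5, hS]
        linarith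
      calc 3 * √3 / 4 * S + S / n + s ≤ 3 * √3 / 4 * S + 3 * √3 / 4 * (S / n + s) := by linarith
        _ = 3 * √3 / 4 * (S + S / n + s) := by ring
        _ ≤ 3 * √3 / 4 * ((1 + 2 / n) * (R - 3 * s)) := by
            apply mul_le_mul_of_nonneg_left h3; positivity
        _ = _ := by ring
    have h2 : (3 * √3 / 4 * S + S / n + √n) ^ n ≤ c * 8 * ((R - 3 * s) / 2) ^ n := by
      have h3 : 0 ≤ (R - 3 * s) / 2 := by linarith
      have h4 : 0 ≤ 3 * √3 / 4 * S + S / n + √n := by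
        rw [← hs]; have : 0 < S := by rw [hS]; linarith
        positivity
      calc (3 * √3 / 4 * S + S / n + √n) ^ n ≤ ((3 * √3 / 2) * (1 + 2 / n) * ((R - 3 * s) / 2)) ^ n :=
            pow_le_pow_left₀ h4 h1 n
        _ = c * (1 + 2 / n) ^ n * ((R - 3 * s) / 2) ^ n := by rw [mul_pow, mul_pow, hc]
        _ ≤ c * 8 * ((R - 3 * s) / 2) ^ n := by
            have := (pow_one_add_le hn 2 (by norm_num)).trans exp_two_le
            gcongr
    have h5 : (4 * (n:ℝ) + 2) ≤ 6 * n := by linarith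
    have hk := kap_nonneg n
    calc V = (4 * n + 2) * (kap n * (3 * √3 / 4 * S + S / n + √n) ^ n) := rfl
      _ ≤ (6 * n) * (kap n * (c * 8 * ((R - 3 * s) / 2) ^ n)) := by
          have h3 : 0 ≤ (R - 3 * s) / 2 := by linarith
          have h4 : 0 ≤ 3 * √3 / 4 * S + S / n + √n := by
            rw [← hs]; have : 0 < S := by rw [hS]; linarith
            positivity
          gcongr
      _ = 48 * n * c * W := by rw [hW]; ring
  -- P
  set P : ℕ := 4800 * n ^ 3 with hP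
  have hPr : (P:ℝ) = 400 * n * R := by rw [hP, hR]; push_cast; ring
  have hPpos : 0 < P := by rw [hP]; positivity
  have hPn : 2 * V ≤ (P:ℝ) ^ n := by
    have h1 : W ≤ R ^ n := by
      rw [hW]
      calc kap n * ((R - 3 * s) / 2) ^ n ≤ 2 ^ n * (R / 2) ^ n := by
            have h3 : 0 ≤ (R - 3 * s) / 2 := by linarith
            have := kap_le n
            have h4 : (R - 3 * s) / 2 ≤ R / 2 := by linarith
            gcongr
        _ = R ^ n := by rw [← mul_pow]; congr 1; ring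
    have h2 : c ≤ 3 ^ n := by
      rw [hc]; apply pow_le_pow_left₀ (by positivity); linarith
    have h3 : 2 * V ≤ 96 * n * (3 ^ n * R ^ n) := by
      have hRn : 0 ≤ R ^ n := by positivity
      calc 2 * V ≤ 2 * (48 * n * c * W) := by linarith
        _ = 96 * n * (c * W) := by ring
        _ ≤ 96 * n * (3 ^ n * R ^ n) := by gcongr
    have h4 : (P:ℝ) ^ n = (400 / 3 * n) ^ n * (3 ^ n * R ^ n) := by
      rw [hPr, ← mul_pow, ← mul_pow]; congr 1; ring
    have h5 : 96 * (n:ℝ) ≤ (400 / 3 * n) ^ n := by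
      calc 96 * (n:ℝ) ≤ 400 / 3 * n := by linarith
        _ = (400 / 3 * n) ^ 1 := by ring
        _ ≤ (400 / 3 * n) ^ n := pow_le_pow_right₀ (by linarith) hn
    rw [h4]
    refine h3.trans ?_
    apply mul_le_mul_of_nonneg_right h5; positivity
  set X : ℝ := (P:ℝ) ^ n / (2 * V) with hX
  have hX1 : 1 ≤ X := by rw [hX, le_div_iff₀ (by positivity)]; linarith
  set N : ℕ := ⌊X⌋₊ with hN
  have hNle : (N:ℝ) ≤ X := Nat.floor_le (by linarith)
  have hNge : X / 2 ≤ N := by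
    have h1 := Nat.lt_floor_add_one X
    rw [← hN] at h1
    have h2 : (1:ℝ) ≤ N := by
      have : 1 ≤ N := by rw [hN]; exact (Nat.one_le_floor_iff X).mpr hX1
      exact_mod_cast this
    linarith
  obtain ⟨A, hA1, hA2, hA3⟩ := build hn (R := R) (by rw [← hs]; exact hRs) P N hPpos
  rw [← hs, ← hr] at hA1 hA3
  rw [← hs] at hA2
  rw [← hS, ← hV, ← hBc] at hA3
  have hPnpos : (0:ℝ) < (P:ℝ) ^ n := by
    have : (0:ℝ) < P := by exact_mod_cast hPpos
    positivity
  have hBc0 : 0 < Bc := lt_of_lt_of_le hW0 hWB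
  have hAlow : (P:ℝ) ^ n * Bc / (8 * V) ≤ A.card := by
    have h1 : (N:ℝ) * V / (P:ℝ) ^ n ≤ 1 / 2 := by
      rw [div_le_iff₀ hPnpos]
      have : (N:ℝ) * (2 * V) ≤ (P:ℝ) ^ n := by
        rw [hX, le_div_iff₀ (by positivity)] at hNle; exact hNle
      linarith
    have h2 : (N:ℝ) * Bc - (N:ℝ) ^ 2 * (Bc * V / (P:ℝ) ^ n) = N * Bc * (1 - N * V / (P:ℝ) ^ n) := by
      field_simp
    have h3 : (N:ℝ) * Bc * (1 / 2) ≤ N * Bc * (1 - N * V / (P:ℝ) ^ n) := by
      apply mul_le_mul_of_nonneg_left _ (by positivity); linarith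
    have h4 : (P:ℝ) ^ n * Bc / (8 * V) = X / 2 * Bc * (1 / 2) := by rw [hX]; field_simp; norm_num
    rw [h4]
    have h5 : X / 2 * Bc * (1 / 2) ≤ N * Bc * (1 / 2) := by gcongr
    linarith
  -- Q
  set Q : ℕ := P + 2 * ⌈r⌉₊ + 12 * n ^ 2 with hQ
  have hQ0 : 0 < Q := by omega
  have hceil : (⌈r⌉₊ : ℝ) ≤ 6 * (n:ℝ) ^ 2 := by
    have h1 : r ≤ ((6 * n ^ 2 : ℕ) : ℝ) := by push_cast; rw [hr, hR]; linarith
    have h2 : ⌈r⌉₊ ≤ 6 * n ^ 2 := Nat.ceil_le.mpr h1
    exact_mod_cast h2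
  have hQle : (Q:ℝ) ≤ P + 24 * (n:ℝ) ^ 2 := by
    rw [hQ]; push_cast; linarith
  have hQP : (Q:ℝ) ^ n ≤ 3 * (P:ℝ) ^ n := by
    have hPp : (0:ℝ) < P := by exact_mod_cast hPpos
    have h1 : (Q:ℝ) ≤ (1 + 1 / n) * P := by
      have h2 : (1 / n : ℝ) * P = 4800 * (n:ℝ) ^ 2 := by
        rw [hP]; push_cast; field_simp
      rw [add_mul, h2, one_mul]
      nlinarith
    calc (Q:ℝ) ^ n ≤ ((1 + 1 / n) * P) ^ n := pow_le_pow_left₀ (by positivity) h1 n
      _ = (1 + 1 / n) ^ n * (P:ℝ) ^ n := by rw [mul_pow]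
      _ ≤ 3 * (P:ℝ) ^ n := by
          have := (pow_one_add_le hn 1 (by norm_num)).trans exp_one_le
          gcongr
  have hQpos : (0:ℝ) < Q := by exact_mod_cast hQ0
  set D : ℝ := 1152 * n * c with hD
  have hD1 : 1 ≤ D := by rw [hD]; nlinarith
  have hα : 1 / D ≤ (A.card : ℝ) / (Q:ℝ) ^ n := by
    rw [div_le_div_iff₀ (by linarith) (by positivity)]
    have h1 : (P:ℝ) ^ n * Bc ≤ A.card * (8 * V) := by
      rwa [div_le_iff₀ (by positivity)] at hAlow
    have h2 : A.card * (8 * V) ≤ A.card * (8 * (48 * n * c * Bc)) := by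
      have h48 : 0 ≤ 48 * (n:ℝ) * c := by positivity
      have h49 : V ≤ 48 * n * c * Bc := hVW.trans (mul_le_mul_of_nonneg_left hWB h48)
      have h50 : (0:ℝ) ≤ A.card := Nat.cast_nonneg _
      exact mul_le_mul_of_nonneg_left (mul_le_mul_of_nonneg_left h49 (by norm_num)) h50
    have h3 : (P:ℝ) ^ n * Bc ≤ (A.card * (384 * n * c)) * Bc := by
      calc _ ≤ _ := h1.trans h2
        _ = _ := by ring
    have h4 : (P:ℝ) ^ n ≤ A.card * (384 * n * c) := le_of_mul_le_mul_right h3 hBc0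
    calc 1 * (Q:ℝ) ^ n ≤ 3 * (P:ℝ) ^ n := by linarith
      _ ≤ 3 * (A.card * (384 * n * c)) := by linarith
      _ = A.card * D := by rw [hD]; ring
  set m : ℕ := ⌊9 * (n:ℝ) ^ 2 * D⌋₊ + 1 with hm
  have hmlt : 9 * (n:ℝ) ^ 2 * D < m := by
    rw [hm]; push_cast; exact Nat.lt_floor_add_one _
  refine ⟨m, ?_, ?_⟩
  · rw [hm]; push_cast
    have h1 : (⌊9 * (n:ℝ) ^ 2 * D⌋₊ : ℝ) ≤ 9 * (n:ℝ) ^ 2 * D := Nat.floor_le (by positivity)
    have h2 : 9 * (n:ℝ) ^ 2 * D = 10368 * (n:ℝ) ^ 3 * c := by rw [hD]; ring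
    have h3 : 1 ≤ (n:ℝ) ^ 3 * c := by
      have : 1 ≤ (n:ℝ) ^ 3 := one_le_pow₀ hnr
      nlinarith
    nlinarith
  · apply colour hn (R := R) (by linarith) A (-(⌈r⌉₊ : ℤ)) (P + ⌈r⌉₊) hA1 (by rw [← hs]; exact hA2) Q hQ0
    · rw [hQ, hR]; push_cast; linarith
    · set α : ℝ := (A.card : ℝ) / (Q:ℝ) ^ n with hαd
      have hαle : 1 - α ≤ Real.exp (-(1 / D)) := by
        have := Real.add_one_le_exp (-(1 / D))
        linarith
      have hα1 : 0 ≤ 1 - α := by
        -- A.card ≤ Q^n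
        have h1 : (A.card : ℝ) ≤ (Q:ℝ) ^ n := by
          have h2 : A ⊆ Fintype.piFinset fun _ : Fin n => Finset.Ico (-(⌈r⌉₊ : ℤ)) (P + ⌈r⌉₊) := by
            intro a ha
            rw [Fintype.mem_piFinset]
            intro i
            exact Finset.mem_Ico.mpr (hA1 a ha i)
          have h3 := Finset.card_le_card h2
          rw [Fintype.card_piFinset] at h3
          simp only [Int.card_Ico, Finset.prod_const, Finset.card_univ, Fintype.card_fin] at h3
          have h4 : ((P:ℤ) + ⌈r⌉₊ - -(⌈r⌉₊ : ℤ)).toNat ≤ Q := by omega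
          have h5 : A.card ≤ Q ^ n := h3.trans (Nat.pow_le_pow_left h4 n)
          exact_mod_cast h5
        rw [hαd, sub_nonneg, div_le_one (by positivity)]
        exact h1
      have hQexp : (Q:ℝ) ≤ Real.exp (9 * n) := by
        have h1 : (Q:ℝ) ≤ 4824 * (n:ℝ) ^ 3 := by
          have : (P:ℝ) = 4800 * (n:ℝ) ^ 3 := by rw [hP]; push_cast; ring
          have h2 : (n:ℝ) ^ 2 ≤ (n:ℝ) ^ 3 := by
            apply pow_le_pow_right₀ hnr; norm_num
          linarith
        have h2 : (n:ℝ) ≤ Real.exp ((n:ℝ) - 1) := by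
          have := Real.add_one_le_exp ((n:ℝ) - 1)
          linarith
        calc (Q:ℝ) ≤ 4824 * (n:ℝ) ^ 3 := h1
          _ ≤ Real.exp 9 * (Real.exp ((n:ℝ) - 1)) ^ 3 := by
              have := exp_nine_ge
              gcongr
          _ = Real.exp (9 + 3 * ((n:ℝ) - 1)) := by
              rw [← Real.exp_nat_mul, ← Real.exp_add]; norm_num
          _ ≤ Real.exp (9 * n) := by
              apply Real.exp_le_exp.mpr; linarith
      calc (Q:ℝ) ^ n * (1 - α) ^ m ≤ (Real.exp (9 * n)) ^ n * (Real.exp (-(1 / D))) ^ m := by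
            gcongr
        _ = Real.exp (9 * (n:ℝ) ^ 2 - m / D) := by
            rw [← Real.exp_nat_mul, ← Real.exp_nat_mul, ← Real.exp_add]
            congr 1; ring
        _ < 1 := by
            rw [Real.exp_lt_one_iff]
            have : 9 * (n:ℝ) ^ 2 < m / D := by
              rw [lt_div_iff₀ (by linarith)]; exact hmlt
            linarith

end Pool.Agent.H449R2.Chi
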